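import Pool.Agent.helper81.UH.Spec

/-!
# Row uh:ZDH (MP_a2a22c_al)
-/

set_option autoImplicit false

namespace Pool.Agent.UH

open Matrix Pool.Agent.H48SL Pool.Agent.UG

/-- the invariant row does not vanish at a generic vector -/
theorem ZDH_ne {n : ℕ} {𝔞 : Submodule ℚ (MQ (n + 1))} {X : Fin n → MQ (n + 1)}
    {f y : Fin (n + 1) → ℚ} (hX : ∀ j, X j ∈ 𝔞) (hrow : ∀ Z ∈ 𝔞, f ᵥ* Z = 0) (hf : f ≠ 0)
    (hy : dl X y ≠ 0) : f ⬝ᵥ y ≠ 0 := by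
  intro h0
  apply hf
  have h1 : f ᵥ* NM X y = 0 := by
    ext j
    refine Fin.cases ?_ (fun j' => ?_) j
    · show f ⬝ᵥ (fun i => NM X y i 0) = 0
      exact h0
    · show f ⬝ᵥ (fun i => NM X y i j'.succ) = 0
      have h2 : (fun i => NM X y i j'.succ) = X j' *ᵥ y := by
        funext i
        rfl
      rw [h2, dotProduct_mulVec, hrow _ (hX j'), zero_dotProduct]
  have h3 := Matrix.vecMul_vecMul f (NM X y) (NM X y).adjugate
  rw [h1, zero_vecMul, Matrix.mul_adjugate, Matrix.vecMul_smul, Matrix.vecMul_one] at h3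
  rcases smul_eq_zero.1 h3.symm with h4 | h4
  · exact absurd h4 hy
  · exact h4

/-- the coincidence element fixes the first vector -/
theorem ZDH_e0 (hFLG : FLG_stmt) (hZZK : ZZK_stmt) {n N : ℕ} {A : Subgroup (SLZ (n + 1))}
    {𝔞 : Submodule ℚ (MQ (n + 1))} {X : Fin n → MQ (n + 1)} {f : Fin (n + 1) → ℚ}
    (hD : Dat A 𝔞 N X f) (hf : f ≠ 0) (h g : SLZ (n + 1)) (hh : dl X (yv h) ≠ 0)
    (hg : dl X (yv g) ≠ 0) (a b c : Fin (n + 1) → ℚ) (t : ℚ) :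
    SS N X f h g a b c t *ᵥ e0 n = e0 n := by
  obtain ⟨k1, k2, -⟩ := hZZK n N X f h g a b c
  have w1 : f ⬝ᵥ (t • (qg h⁻¹ *ᵥ zz f h g a b c)) = 0 := by
    rw [dotProduct_smul, k1, smul_zero]
  have w2 : f ⬝ᵥ (t • (qg g⁻¹ *ᵥ zz f h g a b c)) = 0 := by
    rw [dotProduct_smul, k2, smul_zero]
  obtain ⟨a1, a2, a3⟩ := hFLG n N 𝔞 X f (yv h) (t • (qg h⁻¹ *ᵥ zz f h g a b c)) hD.la.nn hD.mem hD.row hh
    (ZDH_ne hD.mem hD.row hf hh) w1
  obtain ⟨b1, b2, b3⟩ := hFLG n N 𝔞 X f (yv g) (t • (qg g⁻¹ *ᵥ zz f h g a b c)) hD.la.nn hD.mem hD.row hg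
    (ZDH_ne hD.mem hD.row hf hg) w2
  have e1 : (qg g * U1 N X (yv g) (t • (qg g⁻¹ *ᵥ zz f h g a b c)) * qg g⁻¹) *ᵥ e0 n =
      e0 n + t • zz f h g a b c := by
    rw [← mulVec_mulVec, ← mulVec_mulVec]
    have : qg g⁻¹ *ᵥ e0 n = yv g := rfl
    rw [this, b1, mulVec_add, mulVec_smul, mulVec_mulVec, qg_mul_inv, one_mulVec]
    unfold yv
    rw [mulVec_mulVec, qg_mul_inv, one_mulVec]
  have e2 : (qg h * U2 N X (yv h) (t • (qg h⁻¹ *ᵥ zz f h g a b c)) * qg h⁻¹) *ᵥ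
      (e0 n + t • zz f h g a b c) = e0 n := by
    rw [← mulVec_mulVec, mulVec_add, mulVec_smul, ← mulVec_mulVec]
    have : qg h⁻¹ *ᵥ e0 n = yv h := rfl
    rw [this, ← a1, mulVec_mulVec (yv h), a3, one_mulVec]
    unfold yv
    rw [mulVec_mulVec, qg_mul_inv, one_mulVec]
  unfold SS
  rw [← mulVec_mulVec, e1, e2]

theorem ZDH (hDEN : DEN_stmt) (hSPC : SPC_stmt) (hZZK : ZZK_stmt) (hFLG : FLG_stmt) : ZDH_stmt := by
  intro n N A H 𝔞 X f hn hH hD hf hAH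
  let S : Set (SLZ n) := {σ | ∃ (h g : SLZ (n + 1)) (a b c : Fin (n + 1) → ℚ) (t : ℚ),
    dl X (yv h) ≠ 0 ∧ dl X (yv g) ≠ 0 ∧ qg σ = dn (SS N X f h g a b c t)}
  have hSconj : ∀ s ∈ S, ∀ σ : SLZ n, σ * s * σ⁻¹ ∈ S := by
    rintro s ⟨h, g, a, b, c, t, hh, hg, hs⟩ σ
    obtain ⟨u, hu, hus⟩ := exists_up σ
    have hinv : dn (qg u⁻¹) = qg σ⁻¹ := by
      have e1 : dn (qg u) * dn (qg u⁻¹) = 1 := by
        rw [← dn_mul _ _ (fx_succ hu), qg_mul_inv, dn_one]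
      rw [hus] at e1
      calc dn (qg u⁻¹) = qg σ⁻¹ * (qg σ * dn (qg u⁻¹)) := by
            rw [← Matrix.mul_assoc, qg_inv_mul, Matrix.one_mul]
        _ = qg σ⁻¹ := by rw [e1, Matrix.mul_one]
    obtain ⟨-, -, k3⟩ := hZZK n N X f h g a b c
    obtain ⟨y1, k4⟩ := k3 u t hu
    obtain ⟨-, -, k5⟩ := hZZK n N X f g h a b c
    have y2 : yv (u * g) = yv g := (k5 u t hu).1
    refine ⟨u * h, u * g, qg u *ᵥ a, qg u *ᵥ b, qg u *ᵥ c, t, by rw [y1]; exact hh, by rw [y2]; exact hg, ?_⟩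
    rw [k4, dn_mul _ _ ?_, dn_mul _ _ (fx_succ hu), hus, hinv, ← hs, qg_mul, qg_mul]
    intro i
    have h1 : (qg u * SS N X f h g a b c t) *ᵥ e0 n = e0 n := by
      rw [← mulVec_mulVec, ZDH_e0 hFLG hZZK hD hf h g hh hg a b c t]
      exact hu
    have h2 := mulVec_e0 (qg u * SS N X f h g a b c t) i.succ
    rw [h1] at h2
    rw [← h2]
    unfold e0
    simp
  have hSZ : ∀ s ∈ S, s ∈ Zc (Hb H) := by
    rintro s ⟨h, g, a, b, c, t, hh, hg, hs⟩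
    rw [mem_Zc]
    intro F hF hF0
    obtain ⟨P, hP⟩ := IsPolyQ.cast hF
    have h1 : ∀ s ∈ Hb H, ev P (qg s) = 0 := by
      intro s hs
      have h2 : ((F s : ℤ) : ℚ) = ev P (qg s) := hP s
      rw [← h2, hF0 s hs, Int.cast_zero]
    have h3 := hDEN n N A H 𝔞 X f hH hD hf hAH P h1 h g hh hg a b c t
    rw [← hs] at h3
    have h4 : ((F s : ℤ) : ℚ) = ev P (qg s) := hP s
    have h5 : ((F s : ℤ) : ℚ) = 0 := h4.trans h3
    exact_mod_cast h5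
  have hle : Subgroup.normalClosure S ≤ Zc (Hb H) := by
    unfold Subgroup.normalClosure
    rw [Subgroup.closure_le]
    intro s hs
    obtain ⟨a, ha, hc⟩ := Group.mem_conjugatesOfSet_iff.1 hs
    obtain ⟨c, rfl⟩ := isConj_iff.1 hc
    exact hSZ _ (hSconj a ha c)
  obtain ⟨h, g, a, b, c, t, σ, hh, hg, hσ, hσ1, hnil⟩ := hSPC n N A 𝔞 X f (by omega) hD hf
  have hfi := NSG n hn (Subgroup.normalClosure S) Subgroup.normalClosure_normal σ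
    (Subgroup.subset_normalClosure ⟨h, g, a, b, c, t, hh, hg, hσ⟩) hσ1 hnil
  exact zdense_of_le_Zc (FIZ n hn _ hfi) hle

end Pool.Agent.UH
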